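import Pool.Agent.EVF.StmtsR

set_option autoImplicit false

/-!
EVF row FRM: small values of a nonzero form are rare.
-/

namespace Pool.Agent.EVF.H77

open MvPolynomial Pool.Agent.EVF

theorem bv_top (φ : MvPolynomial (Fin 2) ℤ) (s : ℕ) (hφ : φ.IsHomogeneous s) :
    bv φ 1 0 = coeff (Finsupp.single 0 s) φ := by
  unfold bv
  rw [eval_eq]
  rw [Finset.sum_eq_single (Finsupp.single 0 s)]
  · have h1 : ∏ i ∈ (Finsupp.single (0 : Fin 2) s).support,
        (![(1 : ℤ), 0] i) ^ (Finsupp.single (0 : Fin 2) s) i = 1 := by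
      apply Finset.prod_eq_one
      intro i hi
      have hi' : i = 0 := by
        by_contra h
        rw [Finsupp.mem_support_iff, Finsupp.single_eq_of_ne h] at hi
        exact hi rfl
      subst hi'
      simp
    rw [h1, mul_one]
  · intro d hd hne
    have hdeg : d.degree = s := by
      by_contra h
      exact (mem_support_iff.1 hd) (hφ.coeff_eq_zero h)
    have h1 : d 1 ≠ 0 := by
      intro h
      apply hne
      have h2 : d.degree = d 0 + d 1 := by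
        rw [Finsupp.degree_eq_sum, Fin.sum_univ_two]
      ext i
      fin_cases i
      · show d 0 = (Finsupp.single (0 : Fin 2) s) 0
        rw [Finsupp.single_eq_same]
        omega
      · show d 1 = (Finsupp.single (0 : Fin 2) s) 1
        rw [Finsupp.single_eq_of_ne (by decide), h]
    rw [Finset.prod_eq_zero (i := 1) (Finsupp.mem_support_iff.2 h1), mul_zero]
    show (0 : ℤ) ^ d 1 = 0
    exact zero_pow h1
  · intro h
    rw [notMem_support_iff.1 h, zero_mul]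

theorem dvd_X (φ : MvPolynomial (Fin 2) ℤ) (s : ℕ) (hφ : φ.IsHomogeneous (s + 1))
    (h0 : bv φ 1 0 = 0) : ∃ ψ : MvPolynomial (Fin 2) ℤ, ψ.IsHomogeneous s ∧ φ = X 1 * ψ := by
  have h1 : (X 1 : MvPolynomial (Fin 2) ℤ) ∣ φ := by
    rw [X_dvd_iff_modMonomial_eq_zero]
    ext d
    rw [coeff_zero]
    by_cases hd : Finsupp.single 1 1 ≤ d
    · exact coeff_modMonomial_of_le _ hd
    · rw [coeff_modMonomial_of_not_le _ hd]
      have hd1 : d 1 = 0 := by
        by_contra h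
        apply hd
        rw [Finsupp.single_le_iff]
        omega
      by_cases hdeg : d.degree = s + 1
      · have h2 : d = Finsupp.single 0 (s + 1) := by
          have h2 : d.degree = d 0 + d 1 := by
            rw [Finsupp.degree_eq_sum, Fin.sum_univ_two]
          ext i
          fin_cases i
          · show d 0 = (Finsupp.single (0 : Fin 2) (s + 1)) 0
            rw [Finsupp.single_eq_same]
            omega
          · show d 1 = (Finsupp.single (0 : Fin 2) (s + 1)) 1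
            rw [Finsupp.single_eq_of_ne (by decide), hd1]
        rw [h2, ← bv_top φ (s + 1) hφ, h0]
      · exact hφ.coeff_eq_zero hdeg
  obtain ⟨ψ, rfl⟩ := h1
  refine ⟨ψ, ?_, rfl⟩
  intro d hd
  have h2 : coeff (Finsupp.single 1 1 + d) (X 1 * ψ) = coeff d ψ := coeff_X_mul _ _ _
  have h3 : (Finsupp.single 1 1 + d).degree = s + 1 := by
    by_contra h
    apply hd
    rw [← h2]
    exact hφ.coeff_eq_zero h
  rw [map_add, Finsupp.degree_single] at h3
  have h4 : (Finsupp.weight 1) d = d.degree := by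
    have h5 := Finsupp.degree_eq_weight_one (R := ℕ) (σ := Fin 2)
    exact (DFunLike.congr_fun h5 d).symm
  rw [h4]
  omega

theorem SB_fin (H : ℕ) : (SB H).Finite := by
  apply Set.Finite.subset ((Set.finite_Icc (-(H : ℤ)) H).prod (Set.finite_Icc (-(H : ℤ)) H))
  rintro ⟨a, b⟩ ⟨h1, h2⟩
  exact ⟨abs_le.1 h1, abs_le.1 h2⟩

theorem cntB (H : ℕ) (hH : 1 ≤ H) (ε : ℝ) (hε : 0 < ε) :
    ({x : ℤ × ℤ | x ∈ SB H ∧ |(x.2 : ℝ)| < (H : ℝ) ^ (1 - ε)}.ncard : ℝ) ≤
      9 * (H : ℝ) ^ (2 - min ε 1) := by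
  have hH1 : (1 : ℝ) ≤ H := by exact_mod_cast hH
  have hH0 : (0 : ℝ) < H := by linarith
  set δ := min ε 1 with hδ
  have hδε : δ ≤ ε := min_le_left _ _
  have hδ1 : δ ≤ 1 := min_le_right _ _
  set k := ⌊(H : ℝ) ^ (1 - δ)⌋₊ with hk
  have hk1 : (k : ℝ) ≤ (H : ℝ) ^ (1 - δ) := Nat.floor_le (by positivity)
  have h1p : (1 : ℝ) ≤ (H : ℝ) ^ (1 - δ) := Real.one_le_rpow hH1 (by linarith)
  have hsub : {x : ℤ × ℤ | x ∈ SB H ∧ |(x.2 : ℝ)| < (H : ℝ) ^ (1 - ε)} ⊆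
      ((Finset.Icc (-(H : ℤ)) H ×ˢ Finset.Icc (-(k : ℤ)) k : Finset (ℤ × ℤ)) : Set (ℤ × ℤ)) := by
    rintro ⟨a, b⟩ ⟨⟨h1, h2⟩, h3⟩
    rw [Finset.mem_coe, Finset.mem_product, Finset.mem_Icc, Finset.mem_Icc]
    refine ⟨abs_le.1 h1, abs_le.1 ?_⟩
    have h4 : ((|b|.toNat : ℕ) : ℝ) ≤ (H : ℝ) ^ (1 - δ) := by
      have h5 : ((|b|.toNat : ℕ) : ℤ) = |b| := Int.toNat_of_nonneg (abs_nonneg b)
      have h6 : ((|b|.toNat : ℕ) : ℝ) = |(b : ℝ)| := by
        rw [← Int.cast_natCast (R := ℝ), h5, Int.cast_abs]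
      rw [h6]
      refine h3.le.trans ?_
      exact Real.rpow_le_rpow_of_exponent_le hH1 (by linarith)
    have h7 : |b|.toNat ≤ k := Nat.le_floor h4
    have h8 : ((|b|.toNat : ℕ) : ℤ) = |b| := Int.toNat_of_nonneg (abs_nonneg b)
    rw [← h8]
    exact_mod_cast h7
  have h2 := Set.ncard_le_ncard hsub (Finset.finite_toSet _)
  rw [Set.ncard_coe_finset, Finset.card_product, Int.card_Icc, Int.card_Icc] at h2
  have e1 : ((H : ℤ) + 1 - -(H : ℤ)).toNat = 2 * H + 1 := by omega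
  have e2 : ((k : ℤ) + 1 - -(k : ℤ)).toNat = 2 * k + 1 := by omega
  rw [e1, e2] at h2
  have h3 : ({x : ℤ × ℤ | x ∈ SB H ∧ |(x.2 : ℝ)| < (H : ℝ) ^ (1 - ε)}.ncard : ℝ) ≤
      (2 * H + 1) * (2 * k + 1) := by exact_mod_cast h2
  refine h3.trans ?_
  have h4 : (H : ℝ) ^ (2 - δ) = H * (H : ℝ) ^ (1 - δ) := by
    rw [show (2 : ℝ) - δ = 1 + (1 - δ) by ring, Real.rpow_add hH0, Real.rpow_one]
  rw [h4]
  have h5 : (2 * (H : ℝ) + 1) ≤ 3 * H := by linarith
  have h6 : (2 * (k : ℝ) + 1) ≤ 3 * (H : ℝ) ^ (1 - δ) := by linarith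
  calc (2 * (H : ℝ) + 1) * (2 * k + 1) ≤ (3 * H) * (3 * (H : ℝ) ^ (1 - δ)) := by
        apply mul_le_mul h5 h6 <;> positivity
    _ = 9 * (H * (H : ℝ) ^ (1 - δ)) := by ring

theorem frm (hS : SmvStmt) : FrmStmt := by
  intro φ s
  induction s generalizing φ with
  | zero =>
    intro hφ h0 ε hε
    refine ⟨0, 1, one_pos, fun H hH => ?_⟩
    have hH1 : (1 : ℝ) ≤ H := by exact_mod_cast hH
    have h1 : φ = C (coeff 0 φ) := by
      rw [← totalDegree_eq_zero_iff_eq_C, totalDegree_zero_iff_isHomogeneous]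
      exact hφ
    have h2 : {x : ℤ × ℤ | x ∈ SB H ∧
        |(bv φ x.1 x.2 : ℝ)| < (H : ℝ) ^ (((0 : ℕ) : ℝ) - ε)} = ∅ := by
      rw [Set.eq_empty_iff_forall_notMem]
      rintro x ⟨_, h3⟩
      have h4 : bv φ x.1 x.2 = coeff 0 φ := by
        unfold bv
        conv_lhs => rw [h1]
        rw [eval_C]
      rw [h4] at h3
      have h5 : coeff 0 φ ≠ 0 := by
        intro h
        rw [h, C_0] at h1
        exact h0 h1
      have h6 : (1 : ℝ) ≤ |((coeff 0 φ : ℤ) : ℝ)| := by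
        have := Int.one_le_abs h5
        exact_mod_cast this
      have h7 : (H : ℝ) ^ (((0 : ℕ) : ℝ) - ε) ≤ 1 := by
        apply Real.rpow_le_one_of_one_le_of_nonpos hH1
        push_cast
        linarith
      linarith
    rw [h2, Set.ncard_empty]
    simp
  | succ s ih =>
    intro hφ h0 ε hε
    by_cases hb : bv φ 1 0 = 0
    · obtain ⟨ψ, hψ, rfl⟩ := dvd_X φ s hφ hb
      have hψ0 : ψ ≠ 0 := by
        rintro rfl
        exact h0 (mul_zero _)
      obtain ⟨C, η, hη, hC⟩ := ih ψ hψ hψ0 (ε / 2) (by linarith)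
      refine ⟨9 + |C|, min (min (ε / 2) 1) η, lt_min (lt_min (by linarith) one_pos) hη,
        fun H hH => ?_⟩
      have hH1 : (1 : ℝ) ≤ H := by exact_mod_cast hH
      have hH0 : (0 : ℝ) < H := by linarith
      have hsub : {x : ℤ × ℤ | x ∈ SB H ∧
          |(bv (X 1 * ψ) x.1 x.2 : ℝ)| < (H : ℝ) ^ (((s + 1 : ℕ) : ℝ) - ε)} ⊆
          {x : ℤ × ℤ | x ∈ SB H ∧ |(x.2 : ℝ)| < (H : ℝ) ^ (1 - ε / 2)} ∪
          {x : ℤ × ℤ | x ∈ SB H ∧ |(bv ψ x.1 x.2 : ℝ)| < (H : ℝ) ^ ((s : ℝ) - ε / 2)} := by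
        rintro ⟨a, b⟩ ⟨h1, h2⟩
        by_contra hcon
        rw [Set.mem_union, not_or] at hcon
        obtain ⟨h3, h4⟩ := hcon
        have h3' : (H : ℝ) ^ (1 - ε / 2) ≤ |(b : ℝ)| := by
          by_contra h
          exact h3 ⟨h1, not_le.1 h⟩
        have h4' : (H : ℝ) ^ ((s : ℝ) - ε / 2) ≤ |(bv ψ a b : ℝ)| := by
          by_contra h
          exact h4 ⟨h1, not_le.1 h⟩
        have h5 : bv (X 1 * ψ) a b = b * bv ψ a b := by
          unfold bv
          rw [map_mul, eval_X]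
          rfl
        have h6 : |(bv (X 1 * ψ) a b : ℝ)| = |(b : ℝ)| * |(bv ψ a b : ℝ)| := by
          rw [h5]
          push_cast
          rw [abs_mul]
        have h7 : (H : ℝ) ^ (((s + 1 : ℕ) : ℝ) - ε) =
            (H : ℝ) ^ (1 - ε / 2) * (H : ℝ) ^ ((s : ℝ) - ε / 2) := by
          rw [← Real.rpow_add hH0]
          congr 1
          push_cast
          ring
        have h8 : (H : ℝ) ^ (((s + 1 : ℕ) : ℝ) - ε) ≤ |(bv (X 1 * ψ) a b : ℝ)| := by
          rw [h6, h7]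
          apply mul_le_mul h3' h4' (by positivity) (by positivity)
        exact absurd h2 (not_lt.2 h8)
      have hfin1 : {x : ℤ × ℤ | x ∈ SB H ∧ |(x.2 : ℝ)| < (H : ℝ) ^ (1 - ε / 2)}.Finite :=
        (SB_fin H).subset fun x hx => hx.1
      have hfin2 : {x : ℤ × ℤ | x ∈ SB H ∧
          |(bv ψ x.1 x.2 : ℝ)| < (H : ℝ) ^ ((s : ℝ) - ε / 2)}.Finite :=
        (SB_fin H).subset fun x hx => hx.1
      have h1 := (Set.ncard_le_ncard hsub (hfin1.union hfin2)).trans (Set.ncard_union_le _ _)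
      have h2 : ({x : ℤ × ℤ | x ∈ SB H ∧
          |(bv (X 1 * ψ) x.1 x.2 : ℝ)| < (H : ℝ) ^ (((s + 1 : ℕ) : ℝ) - ε)}.ncard : ℝ) ≤
          ({x : ℤ × ℤ | x ∈ SB H ∧ |(x.2 : ℝ)| < (H : ℝ) ^ (1 - ε / 2)}.ncard : ℝ) +
          ({x : ℤ × ℤ | x ∈ SB H ∧
            |(bv ψ x.1 x.2 : ℝ)| < (H : ℝ) ^ ((s : ℝ) - ε / 2)}.ncard : ℝ) := by
        exact_mod_cast h1
      have h3 := cntB H hH (ε / 2) (by linarith)
      have h4 := hC H hH
      set μ := min (min (ε / 2) 1) η with hμ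
      have hμ1 : μ ≤ min (ε / 2) 1 := min_le_left _ _
      have hμ2 : μ ≤ η := min_le_right _ _
      have h5 : (H : ℝ) ^ (2 - min (ε / 2) 1) ≤ (H : ℝ) ^ (2 - μ) :=
        Real.rpow_le_rpow_of_exponent_le hH1 (by linarith)
      have h6 : (H : ℝ) ^ (2 - η) ≤ (H : ℝ) ^ (2 - μ) :=
        Real.rpow_le_rpow_of_exponent_le hH1 (by linarith)
      have h7 : C * (H : ℝ) ^ (2 - η) ≤ |C| * (H : ℝ) ^ (2 - μ) := by
        calc C * (H : ℝ) ^ (2 - η) ≤ |C| * (H : ℝ) ^ (2 - η) :=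
              mul_le_mul_of_nonneg_right (le_abs_self C) (by positivity)
          _ ≤ |C| * (H : ℝ) ^ (2 - μ) := mul_le_mul_of_nonneg_left h6 (abs_nonneg C)
      calc _ ≤ _ := h2
        _ ≤ 9 * (H : ℝ) ^ (2 - min (ε / 2) 1) + C * (H : ℝ) ^ (2 - η) := add_le_add h3 h4
        _ ≤ 9 * (H : ℝ) ^ (2 - μ) + |C| * (H : ℝ) ^ (2 - μ) := by linarith
        _ = (9 + |C|) * (H : ℝ) ^ (2 - μ) := by ring
    · exact hS φ (s + 1) hφ hb (Nat.succ_pos s) ε hε

end Pool.Agent.EVF.H77
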